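import Pool.Agent.K4W.StmtsV

set_option autoImplicit false

namespace Pool.Agent.K4W.H43

theorem gsu_pt (N : ℕ) (κ x : ℝ) (hN : 1 ≤ N) (hκ : 1 ≤ κ) (j : ℕ) (hj : (j : ℝ) ≤ |x|) :
    Real.exp (-(κ * x ^ 2 / (N : ℝ) ^ 2)) ≤ 2 * Real.exp (-(1 / (N : ℝ))) ^ j := by
  have hN0 : (0 : ℝ) < (N : ℝ) := by exact_mod_cast hN
  have h1 : Real.exp (-(κ * x ^ 2 / (N : ℝ) ^ 2)) ≤ Real.exp (1 / 4 + -((j : ℝ) / (N : ℝ))) := by
    apply Real.exp_le_exp.mpr
    have h2 : (|x| / N) - 1 / 4 ≤ (|x| / N) ^ 2 := by nlinarith [sq_nonneg (|x| / (N : ℝ) - 1 / 2)]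
    have h3 : (|x| / N) ^ 2 = x ^ 2 / (N : ℝ) ^ 2 := by rw [div_pow, sq_abs]
    have h4 : x ^ 2 / (N : ℝ) ^ 2 ≤ κ * x ^ 2 / (N : ℝ) ^ 2 := by
      rw [mul_div_assoc]
      have : 0 ≤ x ^ 2 / (N : ℝ) ^ 2 := by positivity
      nlinarith
    have h5 : (j : ℝ) / N ≤ |x| / N := div_le_div_of_nonneg_right hj hN0.le
    linarith
  refine le_trans h1 ?_
  rw [Real.exp_add]
  have h6 : Real.exp (1 / 4) ≤ 2 := by
    have h7 : Real.exp (1 / 4) ^ 4 = Real.exp 1 := by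
      rw [← Real.exp_nat_mul]; norm_num
    have h8 := Real.exp_one_lt_d9
    by_contra hc
    push Not at hc
    have : (2 : ℝ) ^ 4 < Real.exp (1 / 4) ^ 4 := pow_lt_pow_left₀ hc (by norm_num) (by norm_num)
    rw [h7] at this
    linarith
  have h9 : Real.exp (-((j : ℝ) / (N : ℝ))) = Real.exp (-(1 / (N : ℝ))) ^ j := by
    rw [← Real.exp_nat_mul]
    congr 1
    ring
  rw [h9]
  exact mul_le_mul_of_nonneg_right h6 (by positivity)

/-- row GSU -/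
theorem gsu : GsuStmt := by
  intro N κ c hN hκ
  have hN0 : (0 : ℝ) < (N : ℝ) := by exact_mod_cast hN
  have hN1 : (1 : ℝ) ≤ (N : ℝ) := by exact_mod_cast hN
  set r : ℝ := Real.exp (-(1 / (N : ℝ))) with hr
  have hr0 : 0 ≤ r := (Real.exp_pos _).le
  have hr1 : r < 1 := by
    rw [hr, Real.exp_lt_one_iff]
    have : 0 < 1 / (N : ℝ) := by positivity
    linarith
  set c0 : ℝ := Int.fract c with hc0
  have hc0' : 0 ≤ c0 := Int.fract_nonneg c
  have hc1 : c0 < 1 := Int.fract_lt_one c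
  set G : ℤ → ℝ := fun k => Real.exp (-(κ * ((k : ℝ) + c0) ^ 2 / (N : ℝ) ^ 2)) with hG
  have hGF : (fun s : ℤ => Real.exp (-(κ * ((s : ℝ) + c) ^ 2 / (N : ℝ) ^ 2))) =
      G ∘ (Equiv.addRight ⌊c⌋) := by
    funext s
    simp only [hG, Function.comp, Equiv.coe_addRight]
    congr 5
    push_cast
    have := Int.floor_add_fract c
    rw [hc0]
    linarith
  have hg1 : ∀ n : ℕ, G (n : ℤ) ≤ 2 * r ^ n := by
    intro n
    apply gsu_pt N κ _ hN hκ n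
    have : (0 : ℝ) ≤ n := Nat.cast_nonneg n
    rw [Int.cast_natCast, abs_of_nonneg (by linarith)]
    linarith
  have hg2 : ∀ n : ℕ, G (-((n : ℤ) + 1)) ≤ 2 * r ^ n := by
    intro n
    apply gsu_pt N κ _ hN hκ n
    have : (0 : ℝ) ≤ n := Nat.cast_nonneg n
    push_cast
    rw [abs_of_nonpos (by linarith)]
    linarith
  have hgeo : Summable (fun n : ℕ => 2 * r ^ n) :=
    (summable_geometric_of_lt_one hr0 hr1).mul_left 2
  have hs1 : Summable (fun n : ℕ => G (n : ℤ)) :=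
    Summable.of_nonneg_of_le (fun n => (Real.exp_pos _).le) hg1 hgeo
  have hs2 : Summable (fun n : ℕ => G (-((n : ℤ) + 1))) :=
    Summable.of_nonneg_of_le (fun n => (Real.exp_pos _).le) hg2 hgeo
  have hsG : Summable G := Summable.of_nat_of_neg_add_one hs1 hs2
  have htG : ∑' k, G k = ∑' n : ℕ, G (n : ℤ) + ∑' n : ℕ, G (-((n : ℤ) + 1)) :=
    tsum_of_nat_of_neg_add_one hs1 hs2
  have hgs : ∑' n : ℕ, 2 * r ^ n = 2 * (1 - r)⁻¹ := by
    rw [tsum_mul_left, tsum_geometric_of_lt_one hr0 hr1]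
  have hb : (1 - r)⁻¹ ≤ 2 * N := by
    have h1 : r * (1 + 1 / (N : ℝ)) ≤ 1 := by
      have h2 := Real.add_one_le_exp (1 / (N : ℝ))
      have h3 : r * Real.exp (1 / (N : ℝ)) = 1 := by
        rw [hr, ← Real.exp_add]; simp
      calc r * (1 + 1 / (N : ℝ)) ≤ r * Real.exp (1 / (N : ℝ)) :=
            mul_le_mul_of_nonneg_left (by linarith) hr0
        _ = 1 := h3
    have h4 : r * (N + 1) ≤ N := by
      have h5 : r * (N + 1) = (r * (1 + 1 / (N : ℝ))) * N := by field_simp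
      rw [h5]
      nlinarith
    have h6 : 0 < 1 - r := by linarith
    rw [inv_le_comm₀ h6 (by positivity), inv_eq_one_div, div_le_iff₀ (by positivity)]
    nlinarith
  constructor
  · rw [hGF]
    exact (Equiv.addRight ⌊c⌋).summable_iff.mpr hsG
  · have h1 : ∑' s : ℤ, Real.exp (-(κ * ((s : ℝ) + c) ^ 2 / (N : ℝ) ^ 2)) = ∑' k, G k := by
      rw [hGF]
      exact (Equiv.addRight ⌊c⌋).tsum_eq G
    rw [h1, htG]
    have h2 : ∑' n : ℕ, G (n : ℤ) ≤ 2 * (1 - r)⁻¹ := by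
      rw [← hgs]
      exact hs1.tsum_le_tsum hg1 hgeo
    have h3 : ∑' n : ℕ, G (-((n : ℤ) + 1)) ≤ 2 * (1 - r)⁻¹ := by
      rw [← hgs]
      exact hs2.tsum_le_tsum hg2 hgeo
    linarith

end Pool.Agent.K4W.H43
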