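import Pool.Agent.K4W.StmtsW

set_option autoImplicit false

open Polynomial

namespace Pool.Agent.K4W.H43

/-- row WST -/
theorem wst (hWPT : WptStmt) : WstStmt := by
  classical
  intro p hp K _ _ _ m A B h5 hA hm hr
  have : CharP K p := charP_of_injective_algebraMap (algebraMap (ZMod p) K).injective p
  have hpp : p.Prime := hp.out
  have hcard : Fintype.card K = (p ^ m) ^ 2 := by
    have h1 := Module.card_eq_pow_finrank (K := ZMod p) (V := K)
    rw [hr, ZMod.card] at h1
    rw [h1, ← pow_mul, mul_comm]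
  set f : K[X] := C (algebraMap (ZMod p) K A) * X ^ 4 + C (algebraMap (ZMod p) K B) * X with hf
  have hA' : algebraMap (ZMod p) K A ≠ 0 := by
    rw [Ne, map_eq_zero]; exact hA
  have hdeg : f.natDegree = 4 := by
    rw [hf]
    compute_degree!
  set T : K → ZMod p := fun x => Algebra.trace (ZMod p) K
    (algebraMap (ZMod p) K A * x ^ 4 + algebraMap (ZMod p) K B * x) with hT
  have hTe : ∀ x : K, algebraMap (ZMod p) K (T x) =
      ∑ i ∈ Finset.range (2 * m), (f.eval x) ^ (p ^ i) := by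
    intro x
    have h1 := FiniteField.algebraMap_trace_eq_sum_pow (ZMod p) K
      (algebraMap (ZMod p) K A * x ^ 4 + algebraMap (ZMod p) K B * x)
    rw [hr, Nat.card_zmod] at h1
    rw [hT]
    simp only []
    rw [h1]
    refine Finset.sum_congr rfl (fun i _ => ?_)
    rw [hf]
    simp
  have hN : ∀ c : ZMod p, p * ((Finset.univ : Finset K).filter (fun x => T x = c)).card ≤
      (p ^ m) ^ 2 + 13 * p * p ^ m := by
    intro c
    have h1 := hWPT p m K f (algebraMap (ZMod p) K c) hpp h5 hm hcard hdeg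
    refine le_trans (Nat.mul_le_mul_left _ (Finset.card_le_card ?_)) h1
    intro x hx
    rw [Finset.mem_filter] at hx ⊢
    exact ⟨hx.1, by rw [← hTe x, hx.2]⟩
  set n : ZMod p → ℝ := fun c => (((Finset.univ : Finset K).filter (fun x => T x = c)).card : ℝ)
    with hn
  have hpR : (0 : ℝ) < (p : ℝ) := by exact_mod_cast hpp.pos
  have hp1 : (1 : ℝ) ≤ (p : ℝ) := by exact_mod_cast hpp.one_lt.le
  set Q : ℝ := (p : ℝ) ^ m with hQ
  have hQ0 : 0 < Q := pow_pos hpR m
  have hNR : ∀ c, (p : ℝ) * n c ≤ Q ^ 2 + 13 * p * Q := by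
    intro c
    have := hN c
    rw [hn, hQ]
    simp only []
    exact_mod_cast this
  have hsum : ∑ c, n c = Q ^ 2 := by
    have h1 := Finset.sum_fiberwise' (Finset.univ : Finset K) T (fun _ => (1 : ℝ))
    simp only [Finset.sum_const, nsmul_eq_mul, mul_one] at h1
    rw [hn]
    simp only []
    rw [h1, Finset.card_univ, hcard, hQ]
    push_cast
    ring
  have hψ : ∑ c : ZMod p, (ZMod.stdAddChar c : ℂ) = 0 := by
    apply AddChar.sum_eq_zero_of_ne_one
    intro h
    have h1 : (ZMod.stdAddChar : AddChar (ZMod p) ℂ) 1 = (ZMod.stdAddChar : AddChar (ZMod p) ℂ) 0 := by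
      rw [h]; simp
    have h2 := ZMod.injective_stdAddChar h1
    have : Fact (1 < p) := ⟨hpp.one_lt⟩
    exact one_ne_zero h2
  have hSk : Sk p K A B = ∑ c : ZMod p, (n c : ℂ) * (ZMod.stdAddChar c : ℂ) := by
    have h1 := Finset.sum_fiberwise' (Finset.univ : Finset K) T
      (fun c => (ZMod.stdAddChar c : ℂ))
    simp only [Finset.sum_const, nsmul_eq_mul] at h1
    unfold Sk
    rw [hn]
    simp only [Complex.ofReal_natCast]
    rw [h1]
  set e : ZMod p → ℝ := fun c => (Q ^ 2 + 13 * p * Q) / p - n c with he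
  have he0 : ∀ c, 0 ≤ e c := by
    intro c
    have := hNR c
    rw [he]
    simp only [sub_nonneg]
    rw [le_div_iff₀ hpR]
    linarith
  have hesum : ∑ c, e c = 13 * p * Q := by
    rw [he]
    simp only [Finset.sum_sub_distrib, Finset.sum_const, Finset.card_univ, ZMod.card, nsmul_eq_mul]
    rw [hsum]
    field_simp
    ring
  have hSk2 : Sk p K A B = -∑ c : ZMod p, (e c : ℂ) * (ZMod.stdAddChar c : ℂ) := by
    have h1 : ∑ c : ZMod p, (e c : ℂ) * (ZMod.stdAddChar c : ℂ) =
        (((Q ^ 2 + 13 * p * Q) / p : ℝ) : ℂ) * ∑ c : ZMod p, (ZMod.stdAddChar c : ℂ) -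
          ∑ c : ZMod p, (n c : ℂ) * (ZMod.stdAddChar c : ℂ) := by
      rw [Finset.mul_sum, ← Finset.sum_sub_distrib]
      refine Finset.sum_congr rfl (fun c _ => ?_)
      rw [he]
      simp only []
      push_cast
      ring
    rw [h1, hψ, hSk]
    ring
  rw [hSk2, norm_neg]
  calc ‖∑ c : ZMod p, (e c : ℂ) * (ZMod.stdAddChar c : ℂ)‖
      ≤ ∑ c : ZMod p, ‖(e c : ℂ) * (ZMod.stdAddChar c : ℂ)‖ := norm_sum_le _ _
    _ = ∑ c : ZMod p, e c := by
        refine Finset.sum_congr rfl (fun c _ => ?_)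
        rw [norm_mul, AddChar.norm_apply, mul_one, Complex.norm_real, Real.norm_eq_abs,
          abs_of_nonneg (he0 c)]
    _ = 13 * p * Q := hesum
    _ ≤ 13 * (p : ℝ) ^ 2 * Q := by
        have : (p : ℝ) ≤ (p : ℝ) ^ 2 := by nlinarith
        have h2 : 13 * (p : ℝ) ≤ 13 * (p : ℝ) ^ 2 := by linarith
        exact mul_le_mul_of_nonneg_right h2 hQ0.le

end Pool.Agent.K4W.H43
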