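import Pool.Agent.K4W.StmtsF
import Pool.Agent.K4W.StmtsM

set_option autoImplicit false

namespace Pool.Agent.K4W.H43

open Pool.Agent.Helper69_Weyl (ee)

/-- the form of MMN which block F uses -/
theorem mgl (hMMN : MmnStmt) : MmnStatement := by
  intro l hl
  refine ⟨((2 * l : ℕ) : ℝ) ^ (2 * l), by positivity, ?_⟩
  intro r P₀ M S v a A₁ A₂ K hr hS hlt hv hA1 hA2 hK h1 h2 h3
  have hsub : ∀ p : ℕ, Tm M p ⊆ Finset.Icc (-(M : ℤ)) (M : ℤ) := fun p => Finset.filter_subset _ _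
  have h := hMMN l r M P₀ S v a A₁ A₂ K hr hA2 hK ?_ hlt
  · have e : (S.card : ℝ) * A₂ * K = (S.card : ℝ) * (A₂ * K) := by ring
    rw [e]
    exact h
  · intro p hp
    refine ⟨(hS p hp).1, (hS p hp).2.1, hv p hp, ?_, ?_, h3 p hp⟩
    · exact le_trans (Finset.sum_le_sum_of_subset_of_nonneg (hsub p)
        (fun _ _ _ => norm_nonneg _)) (h1 p hp)
    · exact le_trans (Finset.sum_le_sum_of_subset_of_nonneg (hsub p)
        (fun _ _ _ => by positivity)) (h2 p hp)

end Pool.Agent.K4W.H43
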