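import Pool.Agent.K4W.StmtsU

set_option autoImplicit false

namespace Pool.Agent.K4W.H43

theorem uou_pt (Z N μ : ℕ) (hZ : 1 ≤ Z) (hμ : Z ^ 1000 < μ) (h k : ℤ)
    (hp : (h, k) ∉ Bx Z N) :
    h = 0 ∨ k = 0 ∨ 2 * (Z : ℝ) * (N : ℝ) ≤ |2 * (k : ℝ)| ∨
      2 * (Z : ℝ) * (N : ℝ) ≤ |2 * (μ : ℝ) * (h : ℝ)| := by
  by_contra hc
  push Not at hc
  obtain ⟨h0, k0, hk, hh⟩ := hc
  apply hp
  have hZ1 : (1 : ℝ) ≤ (Z : ℝ) ^ 1000 := one_le_pow₀ (by exact_mod_cast hZ)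
  have hμR : (Z : ℝ) ^ 1000 ≤ (μ : ℝ) := by exact_mod_cast hμ.le
  rw [abs_mul, abs_of_pos (by norm_num : (0 : ℝ) < 2)] at hk
  have hμ0 : (0 : ℝ) ≤ (μ : ℝ) := by positivity
  have hh2 : |(h : ℝ)| * (Z : ℝ) ^ 1000 ≤ 2 * (Z : ℝ) * (N : ℝ) := by
    rw [abs_mul, abs_mul, abs_of_pos (by norm_num : (0 : ℝ) < 2), abs_of_nonneg hμ0] at hh
    have h1 : |(h : ℝ)| * (Z : ℝ) ^ 1000 ≤ |(h : ℝ)| * (μ : ℝ) :=
      mul_le_mul_of_nonneg_left hμR (abs_nonneg _)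
    have h2 : 0 ≤ |(h : ℝ)| * (μ : ℝ) := mul_nonneg (abs_nonneg _) hμ0
    nlinarith
  have hh3 : |(h : ℝ)| ≤ 2 * (Z : ℝ) * (N : ℝ) := by
    have h1 : |(h : ℝ)| ≤ |(h : ℝ)| * (Z : ℝ) ^ 1000 :=
      le_mul_of_one_le_right (abs_nonneg _) hZ1
    linarith
  have hk2 : |(k : ℝ)| ≤ (Z : ℝ) * (N : ℝ) := by linarith
  have hh4 : |h| * (Z : ℤ) ^ 1000 ≤ 2 * (Z : ℤ) * (N : ℤ) := by exact_mod_cast hh2
  have hh5 : |h| ≤ 2 * (Z : ℤ) * (N : ℤ) := by exact_mod_cast hh3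
  have hk3 : |k| ≤ (Z : ℤ) * (N : ℤ) := by exact_mod_cast hk2
  unfold Bx
  rw [Finset.mem_filter, Finset.mem_product, Finset.mem_Icc, Finset.mem_Icc]
  push_cast
  exact ⟨⟨abs_le.mp hh5, abs_le.mp hk3⟩, h0, k0, hh4⟩

/-- row UOU -/
theorem uou (hUGA : UgaStmt) (hUGB : UgbStmt) : UouStmt := by
  intro Z N μ hZ hN hμ
  have hμ1 : 1 ≤ 2 * μ := by omega
  have hN0 : (0 : ℝ) < (N : ℝ) := by exact_mod_cast hN
  have hga : ∀ x : ℝ, 0 ≤ ga N x := fun x => (Real.exp_pos _).le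
  have hga0 : ga N 0 = 1 := by simp [ga]
  set w : ℤ → ℝ := fun k => ga N (2 * (k : ℝ)) with hw
  set v : ℤ → ℝ := fun h => ga N (2 * (μ : ℝ) * (h : ℝ)) with hv
  set w' : ℤ → ℝ := fun k => if 2 * (Z : ℝ) * (N : ℝ) ≤ |2 * (k : ℝ)| then ga N (2 * (k : ℝ)) else 0
    with hw'
  set v' : ℤ → ℝ := fun h => if 2 * (Z : ℝ) * (N : ℝ) ≤ |2 * (μ : ℝ) * (h : ℝ)| then
    ga N (2 * (μ : ℝ) * (h : ℝ)) else 0 with hv'
  set e0 : ℤ → ℝ := fun k => if k = 0 then 1 else 0 with he0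
  have hR : (0 : ℝ) ≤ 2 * (Z : ℝ) * (N : ℝ) := by positivity
  obtain ⟨hws, hwb⟩ := hUGA N 2 0 hN (by norm_num)
  obtain ⟨hvs, hvb⟩ := hUGA N (2 * μ) 0 hN hμ1
  obtain ⟨hws', hwb'⟩ := hUGB N 2 0 (2 * (Z : ℝ) * (N : ℝ)) hN (by norm_num) hR
  obtain ⟨hvs', hvb'⟩ := hUGB N (2 * μ) 0 (2 * (Z : ℝ) * (N : ℝ)) hN hμ1 hR
  simp only [add_zero, Nat.cast_ofNat, Nat.cast_mul] at hws hwb hvs hvb hws' hwb' hvs' hvb'
  have hE : Real.pi * (2 * (Z : ℝ) * (N : ℝ)) ^ 2 / (2 * (N : ℝ) ^ 2) =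
      2 * Real.pi * (Z : ℝ) ^ 2 := by
    field_simp
  rw [hE] at hwb' hvb'
  set E : ℝ := Real.exp (-(2 * Real.pi * (Z : ℝ) ^ 2)) with hEE
  have hE0 : 0 ≤ E := (Real.exp_pos _).le
  have hw0 : ∀ k, 0 ≤ w k := fun k => hga _
  have hv0 : ∀ k, 0 ≤ v k := fun k => hga _
  have hw0' : ∀ k, 0 ≤ w' k := by
    intro k; simp only [hw']; split_ifs
    · exact hga _
    · exact le_refl _
  have hv0' : ∀ k, 0 ≤ v' k := by
    intro k; simp only [hv']; split_ifs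
    · exact hga _
    · exact le_refl _
  have he0' : ∀ k, 0 ≤ e0 k := by
    intro k; simp only [he0]; split_ifs <;> norm_num
  have hes : HasSum e0 1 := hasSum_ite_eq 0 1
  have p1 : HasSum (fun p : ℤ × ℤ => e0 p.1 * w p.2) (1 * ∑' k, w k) :=
    hes.mul hws.hasSum (hes.summable.mul_of_nonneg hws he0' hw0)
  have p2 : HasSum (fun p : ℤ × ℤ => v p.1 * e0 p.2) ((∑' k, v k) * 1) :=
    hvs.hasSum.mul hes (hvs.mul_of_nonneg hes.summable hv0 he0')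
  have p3 : HasSum (fun p : ℤ × ℤ => v p.1 * w' p.2) ((∑' k, v k) * ∑' k, w' k) :=
    hvs.hasSum.mul hws'.hasSum (hvs.mul_of_nonneg hws' hv0 hw0')
  have p4 : HasSum (fun p : ℤ × ℤ => v' p.1 * w p.2) ((∑' k, v' k) * ∑' k, w k) :=
    hvs'.hasSum.mul hws.hasSum (hvs'.mul_of_nonneg hws hv0' hw0)
  have ptot := ((p1.add p2).add p3).add p4
  have hle : ∀ p : ℤ × ℤ,
      (if p ∈ Bx Z N then 0 else ga N (2 * (p.2 : ℝ)) * ga N (2 * (μ : ℝ) * (p.1 : ℝ))) ≤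
        e0 p.1 * w p.2 + v p.1 * e0 p.2 + v p.1 * w' p.2 + v' p.1 * w p.2 := by
    rintro ⟨h, k⟩
    have n1 : 0 ≤ e0 h * w k := mul_nonneg (he0' _) (hw0 _)
    have n2 : 0 ≤ v h * e0 k := mul_nonneg (hv0 _) (he0' _)
    have n3 : 0 ≤ v h * w' k := mul_nonneg (hv0 _) (hw0' _)
    have n4 : 0 ≤ v' h * w k := mul_nonneg (hv0' _) (hw0 _)
    split_ifs with hp
    · simp only []
      linarith
    · simp only []
      have hterm : ga N (2 * (k : ℝ)) * ga N (2 * (μ : ℝ) * (h : ℝ)) = v h * w k := by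
        simp only [hw, hv]; ring
      rw [hterm]
      rcases uou_pt Z N μ hZ hμ h k hp with h0 | h0 | h0 | h0
      · have a1 : v h = 1 := by
          simp only [hv, h0, Int.cast_zero, mul_zero, hga0]
        have a2 : e0 h = 1 := by simp [he0, h0]
        have a3 : v h * w k = e0 h * w k := by rw [a1, a2]
        linarith
      · have a1 : w k = 1 := by
          simp only [hw, h0, Int.cast_zero, mul_zero, hga0]
        have a2 : e0 k = 1 := by simp [he0, h0]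
        have a3 : v h * w k = v h * e0 k := by rw [a1, a2]
        linarith
      · have a1 : w' k = w k := by
          simp only [hw', hw, if_pos h0]
        have a3 : v h * w k = v h * w' k := by rw [a1]
        linarith
      · have a1 : v' h = v h := by
          simp only [hv', hv, if_pos h0]
        have a3 : v h * w k = v' h * w k := by rw [a1]
        linarith
  have hnn : ∀ p : ℤ × ℤ,
      0 ≤ (if p ∈ Bx Z N then 0 else ga N (2 * (p.2 : ℝ)) * ga N (2 * (μ : ℝ) * (p.1 : ℝ))) := by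
    intro p
    split_ifs
    · exact le_refl _
    · exact mul_nonneg (hga _) (hga _)
  have hsum := Summable.of_nonneg_of_le hnn hle ptot.summable
  refine ⟨hsum, ?_⟩
  have h1 := hsum.tsum_le_tsum hle ptot.summable
  rw [ptot.tsum_eq] at h1
  refine le_trans h1 ?_
  have b1 : ∑' k, w k ≤ 200 * N := hwb
  have b2 : ∑' k, v k ≤ 200 * N := hvb
  have b3 : ∑' k, w' k ≤ 400 * N * E := hwb'
  have b4 : ∑' k, v' k ≤ 400 * N * E := hvb'
  have c1 : 0 ≤ ∑' k, w k := tsum_nonneg hw0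
  have c2 : 0 ≤ ∑' k, v k := tsum_nonneg hv0
  have c3 : 0 ≤ ∑' k, w' k := tsum_nonneg hw0'
  have c4 : 0 ≤ ∑' k, v' k := tsum_nonneg hv0'
  have d1 : (∑' k, v k) * ∑' k, w' k ≤ (200 * N) * (400 * N * E) :=
    mul_le_mul b2 b3 c3 (by positivity)
  have d2 : (∑' k, v' k) * ∑' k, w k ≤ (400 * N * E) * (200 * N) :=
    mul_le_mul b4 b1 c1 (by positivity)
  nlinarith

end Pool.Agent.K4W.H43
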